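import Pool.Agent.U722.FF.Stm

/-!
# FF-DEG: the degree valuation on the field of fractions of `ℤ[x_0, …, x_n]` (helper780; project of
helper722)
-/

set_option autoImplicit false

namespace Pool.Agent.U780.FFP.DEG

open MvPolynomial U722.FF

/-- the field of rational functions -/
abbrev F (n : ℕ) : Type := FractionRing (MvPolynomial (Fin n) ℤ)

/-- polynomials as rational functions -/
noncomputable abbrev em (n : ℕ) (p : MvPolynomial (Fin n) ℤ) : F n :=
  algebraMap (MvPolynomial (Fin n) ℤ) (F n) p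

lemma em_inj {n : ℕ} {p q : MvPolynomial (Fin n) ℤ} (h : em n p = em n q) : p = q :=
  IsFractionRing.injective (MvPolynomial (Fin n) ℤ) (F n) h

lemma em_ne {n : ℕ} {p : MvPolynomial (Fin n) ℤ} (h : p ≠ 0) : em n p ≠ 0 := by
  intro h0
  exact h (em_inj (h0.trans (map_zero _).symm))

lemma exists_frac {n : ℕ} (x : F n) : ∃ pq : MvPolynomial (Fin n) ℤ × MvPolynomial (Fin n) ℤ,
    pq.2 ≠ 0 ∧ x = em n pq.1 / em n pq.2 := by
  obtain ⟨p, q, hq, h⟩ := IsFractionRing.div_surjective (A := MvPolynomial (Fin n) ℤ) x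
  exact ⟨(p, q), nonZeroDivisors.ne_zero hq, h.symm⟩

/-- minus the degree -/
noncomputable def vd {n : ℕ} (x : F n) : ℤ :=
  ((exists_frac x).choose.2.totalDegree : ℤ) - ((exists_frac x).choose.1.totalDegree : ℤ)

lemma vd_div {n : ℕ} {p q : MvPolynomial (Fin n) ℤ} (hp : p ≠ 0) (hq : q ≠ 0) :
    vd (em n p / em n q) = (q.totalDegree : ℤ) - (p.totalDegree : ℤ) := by
  have h := (exists_frac (em n p / em n q)).choose_spec
  unfold vd
  set r := (exists_frac (em n p / em n q)).choose
  obtain ⟨h1, h2⟩ := h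
  rw [div_eq_div_iff (em_ne hq) (em_ne h1)] at h2
  have h3 : p * r.2 = r.1 * q := by
    apply em_inj
    rw [em, em, map_mul, map_mul]
    exact h2
  have h4 : r.1 ≠ 0 := by
    intro h0
    rw [h0, zero_mul] at h3
    exact (mul_ne_zero hp h1) h3
  have h5 := congrArg totalDegree h3
  rw [totalDegree_mul_of_isDomain hp h1, totalDegree_mul_of_isDomain h4 hq] at h5
  omega

lemma exists_frac' {n : ℕ} (x : F n) (hx : x ≠ 0) : ∃ p q : MvPolynomial (Fin n) ℤ,
    p ≠ 0 ∧ q ≠ 0 ∧ x = em n p / em n q := by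
  obtain ⟨⟨p, q⟩, hq, h⟩ := exists_frac x
  refine ⟨p, q, ?_, hq, h⟩
  rintro rfl
  apply hx
  rw [h, em, map_zero, zero_div]

theorem t_DEG : S_DEG := by
  intro n
  refine ⟨⟨vd, ?_, ?_, em _ 1 / em _ (X 0), ?_, ?_⟩, ?_⟩
  · intro a b ha hb
    obtain ⟨p, q, hp, hq, rfl⟩ := exists_frac' a ha
    obtain ⟨p', q', hp', hq', rfl⟩ := exists_frac' b hb
    have e : em (n + 1) p / em _ q * (em _ p' / em _ q') = em _ (p * p') / em _ (q * q') := by
      rw [div_mul_div_comm, em, em, em, em, em, em, map_mul, map_mul]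
    rw [e, vd_div hp hq, vd_div hp' hq', vd_div (mul_ne_zero hp hp') (mul_ne_zero hq hq'),
      totalDegree_mul_of_isDomain hp hp', totalDegree_mul_of_isDomain hq hq']
    push_cast
    ring
  · intro a b ha hb hab
    obtain ⟨p, q, hp, hq, rfl⟩ := exists_frac' a ha
    obtain ⟨p', q', hp', hq', rfl⟩ := exists_frac' b hb
    have e : em (n + 1) p / em _ q + (em _ p' / em _ q') =
        em _ (p * q' + q * p') / em _ (q * q') := by
      rw [div_add_div _ _ (em_ne hq) (em_ne hq'), em, em, em, em, em, em, map_mul, map_add,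
        map_mul, map_mul]
    have h0 : p * q' + q * p' ≠ 0 := by
      intro h0
      apply hab
      rw [e, h0, em, map_zero, zero_div]
    rw [e, vd_div hp hq, vd_div hp' hq', vd_div h0 (mul_ne_zero hq hq'),
      totalDegree_mul_of_isDomain hq hq']
    have h1 := totalDegree_add (p * q') (q * p')
    rw [totalDegree_mul_of_isDomain hp hq', totalDegree_mul_of_isDomain hq hp'] at h1
    push_cast
    omega
  · exact div_ne_zero (em_ne one_ne_zero) (em_ne (X_ne_zero 0))
  · rw [vd_div one_ne_zero (X_ne_zero 0), totalDegree_X, totalDegree_one]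
    norm_num
  · intro p hp
    change vd _ = _
    have e : algebraMap (MvPolynomial (Fin (n + 1)) ℤ)
        (FractionRing (MvPolynomial (Fin (n + 1)) ℤ)) p = em _ p / em _ 1 := by
      rw [em, em, map_one, div_one]
    rw [e, vd_div hp one_ne_zero, totalDegree_one]
    norm_num

end Pool.Agent.U780.FFP.DEG
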